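import Pool.Agent.Helper57.QZ.Stmts
import Pool.Agent.Helper6.ZM.KW

/-!
# The theorem of Kronecker and Weyl in the form of the sheet
-/

set_option autoImplicit false

namespace Pool.Agent.Helper6.QZ

open MeasureTheory Set Filter Topology Pool.Agent.Helper57.QZ

/-- one angle -/
noncomputable def q1 (x : ℝ) : UnitAddCircle := ((x / (2 * Real.pi) : ℝ) : UnitAddCircle)

/-- the angles modulo `2 π` -/
noncomputable def qq (y : ℕ) : (Pr y → ℝ) → UnitAddTorus (Pr y) := Pi.map fun _ => q1

theorem q1_open : IsOpenQuotientMap q1 := by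
  have h1 : IsOpenQuotientMap (fun x : ℝ => x / (2 * Real.pi)) := by
    have h2 : (2 * Real.pi)⁻¹ ≠ 0 := by have := Real.pi_pos; positivity
    have := (Homeomorph.mulRight₀ _ h2).isOpenQuotientMap
    simpa [div_eq_mul_inv, Homeomorph.mulRight₀] using this
  have h3 : IsOpenQuotientMap ((↑) : ℝ → UnitAddCircle) := QuotientAddGroup.isOpenQuotientMap_mk
  exact h3.comp h1

theorem qq_open (y : ℕ) : IsOpenQuotientMap (qq y) := IsOpenQuotientMap.piMap fun _ => q1_open

theorem mp_q1 : MeasurePreserving q1 circ AddCircle.haarAddCircle := by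
  have hp : (0 : ℝ) < 2 * Real.pi := by have := Real.pi_pos; positivity
  have h1 : MeasurePreserving (fun x : ℝ => x / (2 * Real.pi))
      ((ENNReal.ofReal (2 * Real.pi))⁻¹ • volume) volume := by
    refine ⟨by fun_prop, ?_⟩
    rw [Measure.map_smul]
    have h2 := Real.smul_map_volume_mul_right (a := (2 * Real.pi)⁻¹) (by positivity)
    rw [abs_of_pos (by positivity), ENNReal.ofReal_inv_of_pos hp] at h2
    simpa [div_eq_mul_inv] using h2
  have h3 := h1.restrict_preimage (s := Ioc (0:ℝ) (0 + 1)) measurableSet_Ioc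
  have e1 : (fun x : ℝ => x / (2 * Real.pi)) ⁻¹' Ioc (0:ℝ) (0 + 1) = Ioc 0 (2 * Real.pi) := by
    ext x
    simp only [mem_preimage, mem_Ioc]
    rw [lt_div_iff₀ hp, div_le_iff₀ hp]
    simp
  rw [e1, Measure.restrict_smul] at h3
  have h4 := UnitAddCircle.measurePreserving_mk 0
  have h5 := h4.comp h3
  have h6 : (volume : Measure UnitAddCircle) = AddCircle.haarAddCircle := by
    have := AddCircle.volume_eq_smul_haarAddCircle (T := 1)
    rw [ENNReal.ofReal_one, one_smul] at this
    exact this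
  rw [h6] at h5
  exact h5

theorem mp_qq (y : ℕ) : MeasurePreserving (qq y) (tor y) (Pool.Agent.Helper6.ZM.mu (Pr y)) :=
  measurePreserving_pi (fun _ => circ) (fun _ => AddCircle.haarAddCircle) fun _ => mp_q1

/-- the frequencies -/
noncomputable def ww (y : ℕ) : Pr y → ℝ := fun p => Real.log p / (2 * Real.pi)

theorem qq_lin (y : ℕ) (t : ℝ) : qq y (lin y t) = Pool.Agent.Helper6.ZM.pt (ww y) t := by
  funext p
  simp only [qq, Pi.map, q1, lin, Pool.Agent.Helper6.ZM.pt, ww]
  rw [mul_div_assoc]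

theorem pr_prime (y : ℕ) : ∀ p ∈ Nat.primesBelow (y + 1), p.Prime := fun _ hp =>
  Nat.prime_of_mem_primesBelow hp

theorem ww_indep (y : ℕ) (n : Pr y → ℤ) (hn : n ≠ 0) : ∑ p, n p * ww y p ≠ 0 := by
  intro h
  apply hn
  apply Pool.Agent.Helper6.ZM.log_indep (Nat.primesBelow (y + 1)) (pr_prime y)
  have h1 : ∑ p, n p * ww y p =
      (1 / (2 * Real.pi)) * ∑ p : Pr y, (n p : ℝ) * Real.log (p : ℕ) := by
    rw [Finset.mul_sum]
    refine Finset.sum_congr rfl fun p _ => ?_
    unfold ww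
    ring
  rw [h1] at h
  rcases mul_eq_zero.1 h with h | h
  · exact absurd h (by have := Real.pi_pos; positivity)
  · exact h

theorem q1_eq {x z : ℝ} (h : q1 x = q1 z) : ∃ n : ℤ, z = x + n * (2 * Real.pi) := by
  have hp : (2 * Real.pi) ≠ 0 := by have := Real.pi_pos; positivity
  unfold q1 at h
  rw [eq_comm, QuotientAddGroup.eq, AddSubgroup.mem_zmultiples_iff] at h
  obtain ⟨n, hn⟩ := h
  refine ⟨-n, ?_⟩
  rw [zsmul_eq_mul, mul_one] at hn
  push_cast
  rw [hn]
  field_simp
  ring

section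
variable {y : ℕ} {X : Type} [TopologicalSpace X]

theorem per_one (H : (Pr y → ℝ) → ℝ)
    (hH : ∀ (φ : Pr y → ℝ) (p : Pr y), H (Function.update φ p (φ p + 2 * Real.pi)) = H φ)
    (φ : Pr y → ℝ) (p : Pr y) (n : ℤ) :
    H (Function.update φ p (φ p + n * (2 * Real.pi))) = H φ := by
  have h1 : Function.Periodic (fun x : ℝ => H (Function.update φ p x)) (2 * Real.pi) := by
    intro x
    have := hH (Function.update φ p x) p
    simpa using this
  have h2 := h1.int_mul n (φ p)
  simpa using h2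

theorem per_all (H : (Pr y → ℝ) → ℝ)
    (hH : ∀ (φ : Pr y → ℝ) (p : Pr y), H (Function.update φ p (φ p + 2 * Real.pi)) = H φ)
    (φ ψ : Pr y → ℝ) (n : Pr y → ℤ) (h : ∀ p, ψ p = φ p + n p * (2 * Real.pi)) : H ψ = H φ := by
  classical
  have key : ∀ s : Finset (Pr y), H (fun p => if p ∈ s then ψ p else φ p) = H φ := by
    intro s
    induction s using Finset.induction_on with
    | empty => simp
    | insert a s ha ih =>
      rw [← ih, ← per_one H hH (fun p => if p ∈ s then ψ p else φ p) a (n a)]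
      congr 1
      funext p
      by_cases hp : p = a
      · subst hp
        simp [ha, h]
      · simp [Function.update_of_ne hp, hp]
  have := key Finset.univ
  simpa using this

/-- the function on the torus -/
noncomputable def low (H : X → (Pr y → ℝ) → ℝ) (z : X × UnitAddTorus (Pr y)) : ℝ :=
  H z.1 (Function.surjInv (qq_open y).surjective z.2)

theorem low_qq (H : X → (Pr y → ℝ) → ℝ)
    (hH : ∀ (k : X) (φ : Pr y → ℝ) (p : Pr y),
      H k (Function.update φ p (φ p + 2 * Real.pi)) = H k φ) (k : X) (φ : Pr y → ℝ) :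
    low H (k, qq y φ) = H k φ := by
  unfold low
  set ψ := Function.surjInv (qq_open y).surjective (qq y φ) with hψ
  have h1 : qq y ψ = qq y φ := Function.surjInv_eq (qq_open y).surjective (qq y φ)
  have h2 : ∀ p, ∃ n : ℤ, ψ p = φ p + n * (2 * Real.pi) := fun p => by
    have := congrFun h1 p
    exact q1_eq this.symm
  choose n hn using h2
  exact per_all (H k) (hH k) φ ψ n hn

theorem low_cont (H : X → (Pr y → ℝ) → ℝ) (hc : Continuous (fun q : X × (Pr y → ℝ) => H q.1 q.2))
    (hH : ∀ (k : X) (φ : Pr y → ℝ) (p : Pr y),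
      H k (Function.update φ p (φ p + 2 * Real.pi)) = H k φ) : Continuous (low H) := by
  have h1 : IsOpenQuotientMap (Prod.map (id : X → X) (qq y)) := IsOpenQuotientMap.id.prodMap (qq_open y)
  rw [← h1.continuous_comp_iff]
  have h2 : low H ∘ Prod.map (id : X → X) (qq y) = fun q : X × (Pr y → ℝ) => H q.1 q.2 := by
    funext ⟨k, φ⟩
    exact low_qq H hH k φ
  rw [h2]
  exact hc

end

theorem st_kw1 : ST_KW1 := by
  intro y X _ _ H hc hH η hη
  let G : C(X × UnitAddTorus (Pr y), ℝ) := ⟨low H, low_cont H hc hH⟩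
  have hK : IsCompact (Set.range (G.curry)) := isCompact_range G.curry.continuous
  obtain ⟨T0, hT0, hT⟩ := Pool.Agent.Helper6.ZM.kw_unif (ww y) (ww_indep y) _ hK hη
  refine ⟨T0, hT0, fun T hTT k => ?_⟩
  have T0' : 0 < T := lt_of_lt_of_le hT0 hTT
  have h1 := hT T hTT (G.curry k) ⟨k, rfl⟩
  have e1 : ∫ x, (G.curry k) x ∂(Pool.Agent.Helper6.ZM.mu (Pr y)) = ∫ φ, H k φ ∂tor y := by
    rw [← (mp_qq y).map_eq, integral_map (mp_qq y).measurable.aemeasurable]
    · exact integral_congr_ae (Eventually.of_forall fun φ => low_qq H hH k φ)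
    · exact (G.curry k).continuous.aestronglyMeasurable
  have e2 : ∫ t in T..(2 * T), (G.curry k) (Pool.Agent.Helper6.ZM.pt (ww y) t) =
      ∫ t in T..(2 * T), H k (lin y t) := by
    refine intervalIntegral.integral_congr fun t _ => ?_
    rw [← qq_lin]
    exact low_qq H hH k (lin y t)
  unfold Pool.Agent.Helper6.ZM.avgR at h1
  rw [e1, e2] at h1
  have h3 : (∫ t in T..(2 * T), H k (lin y t)) - T * ∫ φ, H k φ ∂tor y =
      T * (T⁻¹ * (∫ t in T..(2 * T), H k (lin y t)) - ∫ φ, H k φ ∂tor y) := by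
    field_simp
  rw [h3, abs_mul, abs_of_pos T0', mul_comm η]
  exact mul_le_mul_of_nonneg_left h1 T0'.le

theorem st_kw2 : ST_KW2 := by
  intro y X _ _ H hc hH a η hη
  let G : C(X × UnitAddTorus (Pr y), ℝ) := ⟨low H, low_cont H hc hH⟩
  obtain ⟨T1, hT1, h1⟩ := Pool.Agent.Helper6.ZM.kw_level (ww y) (ww_indep y) G
    (η := η / 4) (ε := η) (by positivity) hη
  refine ⟨T1, hT1, fun T hTT k => ?_⟩
  have T0' : 0 < T := lt_of_lt_of_le hT1 hTT
  have em : ∀ b : ℝ, (Pool.Agent.Helper6.ZM.mu (Pr y)).real {x | b < G (k, x)} =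
      (tor y).real {φ | b < H k φ} := by
    intro b
    have mS : MeasurableSet {x : UnitAddTorus (Pr y) | b < G (k, x)} :=
      (isOpen_lt continuous_const (by fun_prop)).measurableSet
    rw [← (mp_qq y).measureReal_preimage mS.nullMeasurableSet]
    congr 1
    ext φ
    simp only [mem_preimage, mem_setOf_eq]
    have : G (k, qq y φ) = H k φ := low_qq H hH k φ
    rw [this]
  have et : ∀ b : ℝ, {t : ℝ | b < G (k, Pool.Agent.Helper6.ZM.pt (ww y) t)} =
      {t | b < H k (lin y t)} := by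
    intro b
    ext t
    simp only [mem_setOf_eq]
    rw [← qq_lin]
    have : G (k, qq y (lin y t)) = H k (lin y t) := low_qq H hH k (lin y t)
    rw [this]
  have fin1 : ∀ S : Set ℝ, S ⊆ Icc T (2 * T) → volume S ≠ ⊤ := fun S hS =>
    ((measure_mono hS).trans_lt measure_Icc_lt_top).ne
  constructor
  · have h2 := (h1 T hTT k (a - η / 2)).1
    rw [em, et] at h2
    have h3 : (tor y).real {φ | a ≤ H k φ} ≤ (tor y).real {φ | a - η / 2 < H k φ} :=
      measureReal_mono (fun φ hφ => by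
        simp only [mem_setOf_eq] at hφ ⊢
        linarith)
    have h4 : volume.real ({t | a - η / 2 - η / 4 < H k (lin y t)} ∩ Icc T (2 * T)) ≤
        volume.real {t : ℝ | t ∈ Icc T (2 * T) ∧ a - η ≤ H k (lin y t)} :=
      measureReal_mono (fun t ht => by
        simp only [mem_inter_iff, mem_setOf_eq] at ht ⊢
        exact ⟨ht.2, by linarith [ht.1]⟩) (fin1 _ fun t ht => ht.1)
    unfold Pool.Agent.Helper6.ZM.prp at h2
    have h5 : (tor y).real {φ | a ≤ H k φ} - η ≤
        T⁻¹ * volume.real {t : ℝ | t ∈ Icc T (2 * T) ∧ a - η ≤ H k (lin y t)} := by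
      have := mul_le_mul_of_nonneg_left h4 (by positivity : 0 ≤ T⁻¹)
      linarith
    calc T * ((tor y).real {φ | a ≤ H k φ} - η) ≤
        T * (T⁻¹ * volume.real {t : ℝ | t ∈ Icc T (2 * T) ∧ a - η ≤ H k (lin y t)}) :=
          mul_le_mul_of_nonneg_left h5 T0'.le
      _ = _ := by field_simp
  · have h2 := (h1 T hTT k (a + η / 4)).2
    rw [em, et] at h2
    have h3 : (tor y).real {φ | a + η / 4 - η / 4 < H k φ} ≤ (tor y).real {φ | a ≤ H k φ} :=
      measureReal_mono (fun φ hφ => by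
        simp only [mem_setOf_eq] at hφ ⊢
        linarith)
    have h4 : volume.real {t : ℝ | t ∈ Icc T (2 * T) ∧ a + η ≤ H k (lin y t)} ≤
        volume.real ({t | a + η / 4 < H k (lin y t)} ∩ Icc T (2 * T)) :=
      measureReal_mono (fun t ht => by
        simp only [mem_inter_iff, mem_setOf_eq] at ht ⊢
        exact ⟨by linarith [ht.2], ht.1⟩) (fin1 _ fun t ht => ht.2)
    unfold Pool.Agent.Helper6.ZM.prp at h2
    have h5 : T⁻¹ * volume.real {t : ℝ | t ∈ Icc T (2 * T) ∧ a + η ≤ H k (lin y t)} ≤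
        (tor y).real {φ | a ≤ H k φ} + η := by
      have := mul_le_mul_of_nonneg_left h4 (by positivity : 0 ≤ T⁻¹)
      linarith
    calc volume.real {t : ℝ | t ∈ Icc T (2 * T) ∧ a + η ≤ H k (lin y t)} =
        T * (T⁻¹ * volume.real {t : ℝ | t ∈ Icc T (2 * T) ∧ a + η ≤ H k (lin y t)}) := by
          field_simp
      _ ≤ _ := mul_le_mul_of_nonneg_left h5 T0'.le

theorem kw2_of (_ : ST_KW1) : ST_KW2 := st_kw2

end Pool.Agent.Helper6.QZ
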